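import Pool.Agent.R444.FK.Loc

/-!
# Functions in Fock spaces satisfy the Lipschitz condition for the induced distance

Let `h(z) = |f(z)| e^{-α|z|²/2}`. For `ω = w - z` and `q = e^{α ω z̄}` one has
`d(z, w) = e^{α|z|²/2} A`, where `A` is the Gaussian mean of `|1 - q e^{α ω v̄}|`. If `|ω| ≥ 1`, then
`A ≥ c` (average over `v` and `v + s`, where `e^{α ω s̄} = -1`); if `|ω| ≤ 1`, then
`A ≥ c (|1 - q| + |q| |ω|)` (average over `v` and `-v`), and this bounds `|f(z) - f(w)|` by Cauchy's
estimate, up to the maximum of `h` on a ball around `z`. This maximum has a continuous majorant in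
`L^p` by the sub-mean value property of `|F|^p`, `0 < p < ∞`.
-/

set_option autoImplicit false

open MeasureTheory ComplexConjugate

namespace Pool.Agent.Results.MP_09e892_an.FockLipschitz

/-- `ℂⁿ` with the Euclidean norm and Lebesgue measure `volume`. -/
abbrev Cn (n : ℕ) := EuclideanSpace ℂ (Fin n)

/-- `z ū = ∑ z_i conj u_i`. -/
noncomputable def dot {n : ℕ} (z u : Cn n) : ℂ := ∑ i, z i * conj (u i)

/-- The Gaussian measure `(β/π)^n e^{-β|u|²} dv(u)`. -/
noncomputable def gauss (n : ℕ) (β : ℝ) : Measure (Cn n) :=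
  (volume : Measure (Cn n)).withDensity
    (fun u => ENNReal.ofReal ((β / Real.pi) ^ n * Real.exp (-(β * ‖u‖ ^ 2))))

/-- The induced distance `d_α(z, w) = ∫ |e^{α z ū} - e^{α w ū}| dλ_{α/2}(u)`. -/
noncomputable def indDist {n : ℕ} (α : ℝ) (z w : Cn n) : ℝ :=
  ∫ u, ‖Complex.exp (α * dot z u) - Complex.exp (α * dot w u)‖ ∂(gauss n (α / 2))

/-- The Fock space `F^p_α`: entire functions with `f(z) e^{-α|z|²/2}` in `L^p(ℂⁿ, dv)`. -/
def InFock {n : ℕ} (α : ℝ) (p : ENNReal) (f : Cn n → ℂ) : Prop :=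
  Differentiable ℂ f ∧ MemLp (fun z => f z * Real.exp (-(α / 2 * ‖z‖ ^ 2))) p volume

open Pool.Agent.R444.FK

lemma dot_eq {n : ℕ} (z u : Cn n) : dot z u = inner ℂ u z := by
  rw [dot, PiLp.inner_apply]
  rfl

lemma indDist_eq {n : ℕ} {α : ℝ} (hα : 0 < α) (z w : Cn n) :
    indDist α z w = (α / 2 / Real.pi) ^ n * DD α z w := by
  have hpi := Real.pi_pos
  rw [indDist, gauss, integral_withDensity_eq_integral_toReal_smul (by fun_prop)
    (Filter.Eventually.of_forall fun _ => ENNReal.ofReal_lt_top), DD, ← integral_const_mul]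
  congr 1
  funext u
  rw [ENNReal.toReal_ofReal (by positivity), dot_eq, dot_eq, smul_eq_mul]
  ring

/-- **Positive answer to Q1.** -/
theorem result (n : ℕ) (_hn : 1 ≤ n) (α : ℝ) (hα : 0 < α) (p : ENNReal) (hp : 0 < p)
    (f : Cn n → ℂ) (hf : InFock α p f) :
    ∃ g : Cn n → ℝ, Continuous g ∧ (∀ z, 0 ≤ g z) ∧ MemLp g p volume ∧
      ∀ z w, ‖f z - f w‖ ≤ indDist α z w * (g z + g w) := by
  obtain ⟨hfd, hfp⟩ := hf
  obtain ⟨g, hgc, hg0, hgp, hg⟩ := majorant hα hfd hp.ne' hfp
  obtain ⟨c₁, hc₁, h₁⟩ := AA_far (n := n) hα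
  obtain ⟨c₂, hc₂, h₂⟩ := AA_near (n := n) hα
  have hpi := Real.pi_pos
  obtain ⟨κ, hκ⟩ : ∃ κ : ℝ, κ = (α / 2 / Real.pi) ^ n := ⟨_, rfl⟩
  have hκ0 : 0 < κ := by rw [hκ]; positivity
  obtain ⟨C, hC⟩ : ∃ C : ℝ, C = (1 / c₁ + Real.exp (2 * α) / c₂) / κ := ⟨_, rfl⟩
  have hC0 : 0 < C := by rw [hC]; positivity
  have hDD0 : ∀ z w : Cn n, 0 ≤ DD α z w := fun z w => by
    unfold DD
    exact integral_nonneg fun u => by positivity
  -- it is enough to have a bound with `DD`
  have key : ∀ z w : Cn n, ‖f z - f w‖ ≤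
      (1 / c₁ + Real.exp (2 * α) / c₂) * DD α z w * (g z + g w) := by
    intro z w
    have hgz := hg0 z
    have hgw := hg0 w
    have hD := hDD0 z w
    by_cases h0 : w - z = 0
    · have : z = w := (sub_eq_zero.mp h0).symm
      rw [this, sub_self, norm_zero]
      rw [this] at hD hgz
      positivity
    · rcases le_total 1 ‖w - z‖ with h | h
      · have e1 : c₁ * Real.exp (α / 2 * ‖z‖ ^ 2) ≤ DD α z w := by
          rw [DD_eq, mul_comm]
          gcongr
          exact h₁ _ _ h
        have e2 : c₁ * Real.exp (α / 2 * ‖w‖ ^ 2) ≤ DD α z w := by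
          rw [DD_symm, DD_eq, mul_comm]
          gcongr
          exact h₁ _ _ (by rw [norm_sub_rev]; exact h)
        have e3 : ∀ x : Cn n, ‖f x‖ = hh α f x * Real.exp (α / 2 * ‖x‖ ^ 2) := by
          intro x
          rw [hh, mul_assoc, ← Real.exp_add, neg_add_cancel, Real.exp_zero, mul_one]
        have e4 : ∀ x : Cn n, hh α f x ≤ g x := by
          intro x
          have := hg x 0 (by simp)
          rwa [add_zero] at this
        have e5 : ∀ x : Cn n, c₁ * Real.exp (α / 2 * ‖x‖ ^ 2) ≤ DD α z w →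
            ‖f x‖ ≤ 1 / c₁ * DD α z w * g x := by
          intro x hx
          have e6 : Real.exp (α / 2 * ‖x‖ ^ 2) ≤ 1 / c₁ * DD α z w := by
            rw [one_div, ← div_eq_inv_mul, le_div_iff₀ hc₁, mul_comm]
            exact hx
          rw [e3 x, mul_comm]
          have := hh_nonneg α f x
          have := e4 x
          gcongr
        calc ‖f z - f w‖ ≤ ‖f z‖ + ‖f w‖ := norm_sub_le _ _
          _ ≤ 1 / c₁ * DD α z w * g z + 1 / c₁ * DD α z w * g w := by
              gcongr
              · exact e5 z e1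
              · exact e5 w e2
          _ = 1 / c₁ * DD α z w * (g z + g w) := by ring
          _ ≤ (1 / c₁ + Real.exp (2 * α) / c₂) * DD α z w * (g z + g w) := by
              gcongr
              have : 0 < Real.exp (2 * α) / c₂ := by positivity
              linarith
      · have e1 := local_est hα hfd z w h0 h (fun ξ hξ => hg z ξ hξ)
        have e2 := h₂ (Complex.exp (α * inner ℂ z (w - z))) (w - z) h0 h
        have e3 : Real.exp (α / 2 * ‖z‖ ^ 2) * (‖1 - Complex.exp (α * inner ℂ z (w - z))‖ +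
            ‖Complex.exp (α * inner ℂ z (w - z))‖ * ‖w - z‖) ≤ 1 / c₂ * DD α z w := by
          rw [one_div, ← div_eq_inv_mul, le_div_iff₀ hc₂, DD_eq]
          calc _ = Real.exp (α / 2 * ‖z‖ ^ 2) * (c₂ *
                (‖1 - Complex.exp (α * inner ℂ z (w - z))‖ +
                  ‖Complex.exp (α * inner ℂ z (w - z))‖ * ‖w - z‖)) := by ring
            _ ≤ _ := by gcongr
        calc ‖f z - f w‖ ≤ Real.exp (2 * α) * Real.exp (α / 2 * ‖z‖ ^ 2) *
              (‖1 - Complex.exp (α * inner ℂ z (w - z))‖ +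
                ‖Complex.exp (α * inner ℂ z (w - z))‖ * ‖w - z‖) * g z := e1
          _ = Real.exp (2 * α) * (Real.exp (α / 2 * ‖z‖ ^ 2) *
              (‖1 - Complex.exp (α * inner ℂ z (w - z))‖ +
                ‖Complex.exp (α * inner ℂ z (w - z))‖ * ‖w - z‖)) * g z := by ring
          _ ≤ Real.exp (2 * α) * (1 / c₂ * DD α z w) * g z := by gcongr
          _ = Real.exp (2 * α) / c₂ * DD α z w * g z := by ring
          _ ≤ (1 / c₁ + Real.exp (2 * α) / c₂) * DD α z w * (g z + g w) := by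
              gcongr
              · have : 0 < 1 / c₁ := by positivity
                linarith
              · linarith
  refine ⟨fun z => C * g z, continuous_const.mul hgc, fun z => by have := hg0 z; positivity,
    hgp.const_mul C, fun z w => ?_⟩
  rw [indDist_eq hα, ← hκ]
  refine (key z w).trans (le_of_eq ?_)
  rw [hC]
  field_simp

end Pool.Agent.Results.MP_09e892_an.FockLipschitz
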